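import Mathlib
import Pool.Agent.Lib.MP_790f3b_al.Main

set_option autoImplicit false

universe u

namespace Pool.Agent.Results.MP_790f3b_al.NotBrace

open Pool.Agent.Lib.MP_790f3b_al in
/-- There is a nilpotent group of class two that is not isomorphic to the multiplicative group of
any left brace. -/
theorem result :
    ∃ (G : Type) (_ : Group G),
      (∃ a b : G, a * b ≠ b * a) ∧ commutator G ≤ Subgroup.center G ∧
      ∀ (A : Type u) [AddCommGroup A] [Group A],
        (∀ a b c : A, a * (b + c) = a * b - a + a * c) → ¬ Nonempty (G ≃* A) := by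
  refine ⟨GG, inferInstance, ⟨gx, gy, not_comm⟩, commutator_le, ?_⟩
  rintro A _ _ hA ⟨e⟩
  have h0 : ∀ a : A, a * 0 = a := by
    intro a
    have := hA a 0 0
    rw [add_zero] at this
    have h1 : a * 0 - a = 0 := by
      have h2 : a * 0 - a + a * 0 = 0 + a * 0 := by rw [← this, zero_add]
      exact add_right_cancel h2
    exact sub_eq_zero.1 h1
  have h01 : (0 : A) = 1 := by
    have := h0 1
    rwa [one_mul] at this
  let lam : A → A →+ A := fun a => AddMonoidHom.mk' (fun b => a * b - a) (fun b c => by
    rw [hA]; abel)
  have hlam : ∀ a b, lam a b = a * b - a := fun _ _ => rfl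
  let ρ : GG →* Module.End ℤ A :=
    { toFun := fun g => (lam (e g)).toIntLinearMap
      map_one' := by
        ext b
        show lam (e 1) b = b
        rw [hlam, map_one, one_mul, ← h01, sub_zero]
      map_mul' := fun g h => by
        ext b
        show lam (e (g * h)) b = lam (e g) (lam (e h) b)
        rw [hlam (e h), map_sub, hlam, hlam, hlam, map_mul, mul_assoc]
        abel }
  refine no_cocycle ρ e (fun g h => ?_) e.bijective
  show e (g * h) = e g + lam (e g) (e h)
  rw [hlam, map_mul]
  abel

end Pool.Agent.Results.MP_790f3b_al.NotBrace
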