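import Pool.Agent.Lib.MP_790f3b_al.T.Main

set_option autoImplicit false

universe u

namespace Pool.Agent.Results.MP_790f3b_al.OneSided

open Pool.Agent.Lib.MP_790f3b_al.T in
/-- There is a left brace whose multiplicative group is nilpotent of class two and is not
isomorphic to the multiplicative group of any two-sided brace. -/
theorem result :
    ∃ (G : Type) (_ : Group G) (_ : AddCommGroup G),
      (∃ a b : G, a * b ≠ b * a) ∧ commutator G ≤ Subgroup.center G ∧
      (∀ a b c : G, a * (b + c) = a * b - a + a * c) ∧
      ∀ (A : Type u) [AddCommGroup A] [Group A],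
        (∀ a b c : A, a * (b + c) = a * b - a + a * c) →
        (∀ a b c : A, (a + b) * c = a * c - c + b * c) → ¬ Nonempty (G ≃* A) := by
  refine ⟨GG, inferInstance, eqv.addCommGroup, ⟨gx, gy, not_comm⟩, commutator_le,
    fun a b c => ?_, ?_⟩
  · rw [Equiv.add_def, Equiv.add_def, Equiv.sub_def, Equiv.apply_symm_apply, Equiv.eq_symm_apply]
    have h : ∀ g h, (eqv (g * h)).1 = (eqv g).1 + lam (eqv g).1.1 (eqv h).1 :=
      fun g h => coc_mul g h
    ext1
    simp only [AddSubgroup.coe_add, AddSubgroup.coe_sub, h, Equiv.apply_symm_apply]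
    ext <;> simp [lam] <;> ring
  rintro A _ _ hA hA' ⟨e⟩
  have h01 : (0 : A) = 1 := by
    have := hA 1 0 0
    simp only [one_mul, add_zero] at this
    exact (sub_eq_zero.1 this.symm)
  let lam : A → A →+ A := fun a => AddMonoidHom.mk' (fun b => a * b - a) (fun b c => by
    rw [hA]; abel)
  have hlam : ∀ a b, lam a b = a * b - a := fun _ _ => rfl
  let ρ : GG →* Module.End ℤ A :=
    { toFun := fun g => (lam (e g)).toIntLinearMap
      map_one' := by
        ext b
        show lam (e 1) b = b
        rw [hlam, map_one, one_mul, ← h01, sub_zero]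
      map_mul' := fun g h => by
        ext b
        show lam (e (g * h)) b = lam (e g) (lam (e h) b)
        rw [hlam (e h), map_sub, hlam, hlam, hlam, map_mul, mul_assoc]
        abel }
  refine no_cocycle ρ e (fun g h => ?_) e.bijective fun g h k m hk => ?_
  · show e (g * h) = e g + lam (e g) (e h)
    rw [hlam, map_mul]
    abel
  · show lam (e k) m - m = lam (e g) m - m + (lam (e h) m - m)
    rw [hlam, hlam, hlam, hk, hA']
    abel

end Pool.Agent.Results.MP_790f3b_al.OneSided
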